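import Pool.Agent.Work.MP_936a99_q3.All

/-!
# MP_936a99_al: generating sets with a short quadratic word of any rank

There is an absolute constant `C` such that for all `n`, all primes `p ≥ 23`, every generating set
`A` of `SL_n(F_p)` and every word `w` of length at most `l` in `A` which is not scalar and satisfies
`(w - c) ^ 2 = 0` for some scalar `c`, every element of `SL_n(F_p)` is a word of length at most
`l p (log |SL_n(F_p)|) ^ C` in `A`.
-/

namespace Pool.Agent.Results.MP_936a99_al.AllQuadraticWords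

open Pool.Agent.Work.MP_936a99_al_h7 Pool.Agent.Work.MP_936a99_q3

/-- `g` is a word of length at most `L` in `A`: a product of at most `L` elements of `A` or
inverses of elements of `A`. -/
def IsWord {G : Type} [Group G] (A : Set G) (L : ℕ) (g : G) : Prop :=
  ∃ v : List G, v.length ≤ L ∧ (∀ x ∈ v, x ∈ A ∨ x⁻¹ ∈ A) ∧ v.prod = g

/-- `w` is not a scalar matrix and `(w - c) ^ 2 = 0` for some scalar `c`. -/
def Quadratic {n p : ℕ} (w : Matrix.SpecialLinearGroup (Fin n) (ZMod p)) : Prop :=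
  (∃ c : ZMod p, ((w : Matrix (Fin n) (Fin n) (ZMod p)) - c • 1) ^ 2 = 0) ∧
    ∀ d : ZMod p, (w : Matrix (Fin n) (Fin n) (ZMod p)) ≠ d • 1

theorem result : ∃ C : ℕ, ∀ n p l : ℕ, p.Prime → 23 ≤ p →
    ∀ A : Set (Matrix.SpecialLinearGroup (Fin n) (ZMod p)), Subgroup.closure A = ⊤ →
    ∀ w, IsWord A l w → Quadratic w →
    ∀ g, ∃ L : ℕ, IsWord A L g ∧
      (L : ℝ) ≤ l * p * Real.log (Nat.card (Matrix.SpecialLinearGroup (Fin n) (ZMod p))) ^ C := by
  obtain ⟨C, hC⟩ := all_quadratic
  refine ⟨C, fun n p l hp hp23 A hA w hw hr g => ?_⟩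
  have : Fact p.Prime := ⟨hp⟩
  obtain ⟨⟨c, hc⟩, hns⟩ := hr
  exact hC n p l hp23 A hA w hw c hc hns g

end Pool.Agent.Results.MP_936a99_al.AllQuadraticWords
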