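import Pool.Agent.Work.MP_936a99_al_h7.Bound

/-!
# MP_936a99_al: generating sets with an element of bounded rank

For every prime `p`, every `n` and every generating set `A` of `SL_n(F_p)`: if some word of length
at most `l` in `A ∪ A⁻¹` is not scalar and differs from a scalar matrix by a matrix of rank at most
`r`, then every element is a word of length at most `l (log |G|) ^ (300 p r ^ 2)`.
-/

namespace Pool.Agent.Results.MP_936a99_al.BoundedRank

open Pool.Agent.Work.MP_936a99_al_h7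

theorem result (n p : ℕ) (hp : p.Prime)
    (A : Set (Matrix.SpecialLinearGroup (Fin n) (ZMod p))) (hA : Subgroup.closure A = ⊤)
    (r l : ℕ) (w : List (Matrix.SpecialLinearGroup (Fin n) (ZMod p)))
    (hwA : ∀ x ∈ w, x ∈ A ∨ x⁻¹ ∈ A) (hwl : w.length ≤ l) (c : ZMod p)
    (hr : Matrix.rank ((w.prod : Matrix (Fin n) (Fin n) (ZMod p)) - c • 1) ≤ r)
    (hns : ∀ d : ZMod p, (w.prod : Matrix (Fin n) (Fin n) (ZMod p)) ≠ d • 1)
    (g : Matrix.SpecialLinearGroup (Fin n) (ZMod p)) :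
    ∃ v : List (Matrix.SpecialLinearGroup (Fin n) (ZMod p)),
      (v.length : ℝ) ≤ l *
        Real.log (Nat.card (Matrix.SpecialLinearGroup (Fin n) (ZMod p))) ^ (300 * p * r ^ 2) ∧
      (∀ x ∈ v, x ∈ A ∨ x⁻¹ ∈ A) ∧ v.prod = g := by
  have : Fact p.Prime := ⟨hp⟩
  have hp2 : 2 ≤ p := hp.two_le
  set C := Nat.card (Matrix.SpecialLinearGroup (Fin n) (ZMod p)) with hC
  suffices h : ∃ L : ℕ, Reach A L g ∧ (L : ℝ) ≤ l * Real.log C ^ (300 * p * r ^ 2) by
    obtain ⟨L, ⟨v, hv1, hv2, hv3⟩, hL⟩ := h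
    exact ⟨v, le_trans (by exact_mod_cast hv1) hL, hv2, hv3⟩
  have hn2 : 2 ≤ n := two_le_of_nonscalar hns
  have hl : 1 ≤ l := by
    rw [Nat.one_le_iff_ne_zero]
    rintro rfl
    have h1 : w = [] := List.length_eq_zero_iff.1 (Nat.le_zero.1 hwl)
    apply hns 1
    rw [h1]
    simp
  have hcard : 2 ^ n ≤ C + 1 := pow_le_card hn2
  obtain ⟨g0, hg0, hρ1, hρ2⟩ := exists_small_rank hA (w := w.prod) (ℓ := l) ⟨w, hwl, hwA, rfl⟩ hr hns
  set ρ := ((g0 : Matrix (Fin n) (Fin n) (ZMod p)) - 1).rank with hρ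
  have hr1 : 1 ≤ r := by omega
  by_cases hcase : 3 * ρ + 1 ≤ n
  · have hn4 : 4 ≤ n := by omega
    obtain ⟨u, f, hu, hf, hfu, ht⟩ := exists_transvection hA hg0 hρ.symm hρ1 hcase
    have hall := fun (x y : Fin n → ZMod p) (hxy : y ⬝ᵥ x = 0) =>
      all_transvections hA hn4 ht hu hf hfu hxy
    refine ⟨_, gen_by_transvections hall g, ?_⟩
    -- the logarithm
    have h1 : (2 : ℝ) ^ (n - 1) ≤ C := by
      have : 2 ^ (n - 1) ≤ C := by
        have h2 : 2 ^ n = 2 * 2 ^ (n - 1) := by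
          rw [← pow_succ', Nat.sub_add_cancel (by omega)]
        have h3 : 1 ≤ 2 ^ (n - 1) := Nat.one_le_two_pow
        omega
      exact_mod_cast this
    have h2 : ((n : ℝ) - 1) * Real.log 2 ≤ Real.log C := by
      have h3 := Real.log_le_log (by positivity) h1
      rw [Real.log_pow, Nat.cast_sub (by omega), Nat.cast_one] at h3
      exact h3
    have h3 := Real.log_two_gt_d9
    have h4 : (4 : ℝ) ≤ n := by exact_mod_cast hn4
    have hx : (n : ℝ) ≤ 2 * Real.log C := by nlinarith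
    exact main_bound hp2 hr1 hρ2 hl hn4 hx (by nlinarith)
  · have hn3 : n ≤ 3 * ρ := by omega
    refine ⟨C, reach_card hA g, ?_⟩
    have h1 : (3 : ℝ) ≤ C := by
      have h2 : 2 ^ 2 ≤ 2 ^ n := Nat.pow_le_pow_right (by norm_num) hn2
      have : 3 ≤ C := by omega
      exact_mod_cast this
    exact small_bound hp2 hρ2 hl hn3 (Real.log_le_log (by norm_num) h1) card_le_pow

end Pool.Agent.Results.MP_936a99_al.BoundedRank
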