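import Pool.Agent.Work.MP_936a99_pt.All

/-!
# MP_936a99_al: Babai's bound for generating sets with a short word of bounded rank

For every `r` there is `C` such that for all `n`, all primes `p`, every generating set `A` of
`SL_n(F_p)` and every word `w` of length at most `l` in `A` which is not a scalar matrix and
satisfies `rank (w - c) ≤ r` for some scalar `c`, every element of `SL_n(F_p)` is a word of length
at most `l (log |SL_n(F_p)|) ^ C` in `A`.
-/

namespace Pool.Agent.Results.MP_936a99_al.BoundedRankAllPrimes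

open Pool.Agent.Work.MP_936a99_al_h7 Pool.Agent.Work.MP_936a99_pt

/-- `g` is a word of length at most `L` in `A`: a product of at most `L` elements of `A` or
inverses of elements of `A`. -/
def IsWord {G : Type} [Group G] (A : Set G) (L : ℕ) (g : G) : Prop :=
  ∃ v : List G, v.length ≤ L ∧ (∀ x ∈ v, x ∈ A ∨ x⁻¹ ∈ A) ∧ v.prod = g

/-- `w` is not a scalar matrix and differs from some scalar matrix by a matrix of rank at most
`r`. -/
def BoundedRank {n p : ℕ} (r : ℕ) (w : Matrix.SpecialLinearGroup (Fin n) (ZMod p)) : Prop :=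
  (∃ c : ZMod p, ((w : Matrix (Fin n) (Fin n) (ZMod p)) - c • 1).rank ≤ r) ∧
    ∀ d : ZMod p, (w : Matrix (Fin n) (Fin n) (ZMod p)) ≠ d • 1

theorem result : ∀ r : ℕ, ∃ C : ℕ, ∀ n p l : ℕ, p.Prime →
    ∀ A : Set (Matrix.SpecialLinearGroup (Fin n) (ZMod p)), Subgroup.closure A = ⊤ →
    ∀ w, IsWord A l w → BoundedRank r w → ∀ g, ∃ L : ℕ, IsWord A L g ∧
      (L : ℝ) ≤ l * Real.log (Nat.card (Matrix.SpecialLinearGroup (Fin n) (ZMod p))) ^ C := by
  intro r
  obtain ⟨C, hC⟩ := final_of fd_thm r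
  refine ⟨C, fun n p l hp A hA w hw hr g => ?_⟩
  have : Fact p.Prime := ⟨hp⟩
  obtain ⟨⟨c, hc⟩, hns⟩ := hr
  exact hC n p l A hA w hw c hc hns g

end Pool.Agent.Results.MP_936a99_al.BoundedRankAllPrimes
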