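import Pool.Agent.Work.MP_936a99_lb81.Ball

/-!
# MP_936a99_al: large balls

There is an absolute constant `C` such that for all `n`, all primes `p ≥ 23`, every generating set
`A` of `SL_n(F_p)` and every `r`: if the set of the words of length at most `r` has more than
`p ^ ((n ^ 2 + n) / 2)` elements, then every element of `SL_n(F_p)` is a word of length at most
`r p (log |SL_n(F_p)|) ^ C` in `A`.
-/

namespace Pool.Agent.Results.MP_936a99_al.LargeBalls

open Pool.Agent.Work.MP_936a99_al_h7 Pool.Agent.Work.MP_936a99_q3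
  Pool.Agent.Work.MP_936a99_lb81 Pool.Agent.Work.MP_936a99_q81

/-- `g` is a word of length at most `L` in `A`: a product of at most `L` elements of `A` or
inverses of elements of `A`. -/
def IsWord {G : Type} [Group G] (A : Set G) (L : ℕ) (g : G) : Prop :=
  ∃ v : List G, v.length ≤ L ∧ (∀ x ∈ v, x ∈ A ∨ x⁻¹ ∈ A) ∧ v.prod = g

theorem result : ∃ C : ℕ, ∀ n p r : ℕ, p.Prime → 23 ≤ p →
    ∀ A : Set (Matrix.SpecialLinearGroup (Fin n) (ZMod p)), Subgroup.closure A = ⊤ →
    p ^ (n ^ 2 + n) < Nat.card {g // IsWord A r g} ^ 2 →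
    ∀ g, ∃ L : ℕ, IsWord A L g ∧
      (L : ℝ) ≤ r * p * Real.log (Nat.card (Matrix.SpecialLinearGroup (Fin n) (ZMod p))) ^ C := by
  classical
  obtain ⟨C, hC⟩ := all_quadratic
  refine ⟨C + 24, fun n p r hp hp23 A hA hB g => ?_⟩
  have : Fact p.Prime := ⟨hp⟩
  set B : Finset (SLn n (ZMod p)) := Finset.univ.filter (fun g => Reach A r g) with hBdef
  have hcard : Nat.card {g // IsWord A r g} = B.card := by
    rw [Nat.card_eq_fintype_card, Fintype.card_subtype]
    rfl
  rw [hcard] at hB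
  obtain ⟨x, y, ⟨g1, hg1, g2, hg2, hx⟩, ⟨g3, hg3, g4, hg4, hy⟩, h0, h1⟩ := exists_pair B hB
  have hmem : ∀ g ∈ B, Reach A r g := fun g hg => (Finset.mem_filter.1 hg).2
  have rx : Reach A (2 * r) x := by
    rw [hx]
    exact ((hmem g1 hg1).mul (hmem g2 hg2).inv).mono (by omega)
  have ry : Reach A (2 * r) y := by
    rw [hy]
    exact ((hmem g3 hg3).inv.mul (hmem g4 hg4)).mono (by omega)
  have rz : Reach A (8 * r) (x * y * x⁻¹ * y⁻¹) :=
    (((rx.mul ry).mul rx.inv).mul ry.inv).mono (by omega)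
  obtain ⟨q1, q2⟩ := commutator_quadratic h0 h1
  obtain ⟨L, hL1, hL2⟩ := hC n p (8 * r) hp23 A hA _ rz 1 (by rwa [one_smul]) q2 g
  refine ⟨L, hL1, hL2.trans ?_⟩
  have hn2 : 2 ≤ n := two_le_of_nonscalar q2
  obtain ⟨hx1, -⟩ := logcard (n := n) (p := p) hn2
  set t : ℝ := Real.log (Nat.card (SLn n (ZMod p))) with ht
  have ht0 : 0 ≤ t := (Real.log_nonneg (by norm_num)).trans hx1
  have hx8 : (2 : ℝ) ≤ t ^ 8 := by
    refine log_three_pow.trans ?_
    gcongr
  have h8 : (8 : ℝ) ≤ t ^ 24 := by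
    calc (8 : ℝ) = 2 ^ 3 := by norm_num
      _ ≤ (t ^ 8) ^ 3 := by gcongr
      _ = t ^ 24 := by ring
  push_cast
  calc 8 * (r : ℝ) * p * t ^ C = 8 * (r * p * t ^ C) := by ring
    _ ≤ t ^ 24 * (r * p * t ^ C) := by gcongr
    _ = r * p * t ^ (C + 24) := by ring

end Pool.Agent.Results.MP_936a99_al.LargeBalls
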